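import Pool.Agent.H586.AF.B

/-!
# Project AF (helper586), task CT: continuity of the heat traces (helper976)
-/

set_option autoImplicit false

open MeasureTheory Matrix Finset Filter Topology

namespace Pool.Agent.H976.AF

open Pool.Agent.H586.AF

theorem hk_cont {n : ℕ} (A : Matrix (Fin n) (Fin n) ℝ) : Continuous (hk A) := by
  let _ : SeminormedRing (Matrix (Fin n) (Fin n) ℝ) := Matrix.linftyOpSemiNormedRing
  let _ : NormedRing (Matrix (Fin n) (Fin n) ℝ) := Matrix.linftyOpNormedRing
  let _ : NormedAlgebra ℝ (Matrix (Fin n) (Fin n) ℝ) := Matrix.linftyOpNormedAlgebra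
  let _ : NormedAlgebra ℚ (Matrix (Fin n) (Fin n) ℝ) := Matrix.linftyOpNormedAlgebra
  have h : Continuous (NormedSpace.exp : Matrix (Fin n) (Fin n) ℝ → Matrix (Fin n) (Fin n) ℝ) :=
    NormedSpace.exp_continuous
  have h2 : Continuous (fun t : ℝ => (-t) • A) := by fun_prop
  exact h.comp h2

theorem tct : S_CT := by
  intro n A
  have h := hk_cont A
  have h1 : Continuous (fun z : ℝ × ℝ => hk A z.1) := h.comp continuous_fst
  have h2 : Continuous (fun z : ℝ × ℝ => hk A z.2) := h.comp continuous_snd
  refine ⟨?_, ?_, ?_, ?_⟩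
  · exact h.matrix_trace
  · have e : Function.uncurry (aa A) = fun z : ℝ × ℝ => ∑ x : Fin n, ∑ y : Fin n,
        (((x : ℕ) : ℝ) - ((y : ℕ) : ℝ)) ^ 2 * hk A z.1 x y * hk A z.2 x y := rfl
    rw [e]
    refine continuous_finsetSum _ fun x _ => continuous_finsetSum _ fun y _ => ?_
    exact (continuous_const.mul (h1.matrix_elem x y)).mul (h2.matrix_elem x y)
  · have e : Function.uncurry (bb A) = fun z : ℝ × ℝ =>
        -(km n * hk A z.1 * km n * hk A z.2).trace := rfl
    rw [e]
    exact ((((continuous_const.matrix_mul h1).matrix_mul continuous_const).matrix_mul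
      h2).matrix_trace).neg
  · intro L
    have e : Function.uncurry (nn L) = fun z : ℝ × ℝ =>
        (hk (lNN L) z.1 * nm L (L - 1) * hk (lDD L) z.2 * (nm L (L - 1))ᵀ).trace := rfl
    have k1 : Continuous (fun z : ℝ × ℝ => hk (lNN L) z.1) := (hk_cont _).comp continuous_fst
    have k2 : Continuous (fun z : ℝ × ℝ => hk (lDD L) z.2) := (hk_cont _).comp continuous_snd
    rw [e]
    exact (((k1.matrix_mul continuous_const).matrix_mul k2).matrix_mul
      continuous_const).matrix_trace

end Pool.Agent.H976.AF
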